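import Pool.Agent.MP_c69980_ag.H43.Spec6

/-!
A place of a complex function field lies on a holomorphic family of places.
-/

set_option autoImplicit false

namespace Pool.Agent.MP_c69980_ag.H43

open Filter Topology Metric Pool.Agent.MP_f3836a_nt.PK

variable {L : Type} [Field L] [Algebra ℂ L]

section Alg

open Polynomial

variable (h : FFd L) (P : Pl L) {π : L} (h0 : π ≠ 0) (h1 : P.ord π = 1)
include h h0 h1

theorem arcP_pos {u v : L} (hu : u ≠ 0) (hv : v ∈ P.V) (e : u = π * v) : 0 < P.ord u := by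
  have v0 : v ≠ 0 := fun k => hu (by rw [e, k, mul_zero])
  have := (h.a.mem P v v0).1 hv
  rw [e, h.a.mul P _ _ h0 v0]
  omega

theorem arcP_const {c : ℂ} {v : L} (hv : v ∈ P.V) (e : algebraMap ℂ L c = π * v) : c = 0 := by
  by_contra k
  have := arcP_pos h P h0 h1 (by simpa using k) hv e
  rw [h.a.con] at this
  omega

theorem arcP_mem : π ∈ P.V := (h.a.mem P π h0).2 (by omega)

theorem arcP_div {u : L} (hu : u ≠ 0) (n : ℕ) :
    u / π ^ n ≠ 0 ∧ P.ord (u / π ^ n) = P.ord u - n := by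
  have k : u / π ^ n ≠ 0 := div_ne_zero hu (pow_ne_zero _ h0)
  have := h.a.mul P _ _ k (pow_ne_zero n h0)
  rw [div_mul_cancel₀ _ (pow_ne_zero n h0), PlB.ord_pow h.a P π h0, h1] at this
  exact ⟨k, by omega⟩

theorem arcP_exp (n : ℕ) : ∀ x ∈ P.V, ∃ q ∈ Algebra.adjoin ℂ {π}, ∃ w ∈ P.V,
    x = q + π ^ n * w := by
  induction n with
  | zero => exact fun x hx => ⟨0, zero_mem _, x, hx, by simp⟩
  | succ n ih =>
    intro x hx
    obtain ⟨q, hq, w, hw, e⟩ := ih x hx
    obtain ⟨w', a, b⟩ : ∃ w' ∈ P.V, w - algebraMap ℂ L (P.val w) = π * w' := by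
      by_cases k : w - algebraMap ℂ L (P.val w) = 0
      · exact ⟨0, zero_mem _, by simp [k]⟩
      · have a := ((h.a.val P w hw _).2 rfl).resolve_left k
        obtain ⟨b, c⟩ := arcP_div h P h0 h1 k 1
        exact ⟨_, (h.a.mem P _ b).2 (by omega), by field_simp⟩
    refine ⟨q + π ^ n * algebraMap ℂ L (P.val w), add_mem hq (mul_mem (pow_mem
      (Algebra.self_mem_adjoin_singleton ℂ π) n) (Subalgebra.algebraMap_mem _ _)), w', a, ?_⟩
    linear_combination e + π ^ n * b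

omit h h0 h1 in
theorem arcP_adj {S : Set L} (hS : ∀ x ∈ S, x ∈ P.V) {x : L} (hx : x ∈ Algebra.adjoin ℂ S) :
    x ∈ P.V := by
  induction hx using Algebra.adjoin_induction with
  | mem x k => exact hS x k
  | algebraMap c => exact P.const c
  | add x y _ _ a b => exact add_mem a b
  | mul x y _ _ a b => exact mul_mem a b

omit h h0 h1 in
theorem arcP_one {r : L} (hr : r ∈ Algebra.adjoin ℂ {π}) :
    ∃ c : ℂ, ∃ r' ∈ Algebra.adjoin ℂ {π}, r = algebraMap ℂ L c + π * r' := by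
  rw [Algebra.adjoin_singleton_eq_range_aeval] at hr ⊢
  obtain ⟨p, rfl⟩ := hr
  refine ⟨p.coeff 0, _, ⟨p.divX, rfl⟩, ?_⟩
  have := congrArg (aeval π) (X_mul_divX_add p)
  simp only [map_add, map_mul, aeval_X, aeval_C] at this
  exact this.symm.trans (add_comm _ _)

theorem arcP_dvd (n : ℕ) : ∀ r ∈ Algebra.adjoin ℂ {π}, ∀ w ∈ P.V, r = π ^ n * w →
    w ∈ Algebra.adjoin ℂ {π} := by
  induction n with
  | zero => exact fun r hr w _ e => by simpa [e] using hr
  | succ n ih =>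
    intro r hr w hw e
    obtain ⟨c, r', a, b⟩ := arcP_one hr
    have hπ := arcP_mem h P h0 h1
    obtain rfl : c = 0 := arcP_const h P h0 h1 (v := π ^ n * w - r')
      (sub_mem (mul_mem (pow_mem hπ n) hw) (arcP_adj P (by simpa using hπ) a))
      (by linear_combination e - b)
    refine ih r' a w hw (mul_left_cancel₀ h0 ?_)
    rw [map_zero] at b
    linear_combination e - b

omit h h0 h1 in
theorem arcP_taylor {A B : Subalgebra ℂ L} (hAB : A ≤ B) (F : A[X]) (q : A) {t : L} (ht : t ∈ B) :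
    (∃ κ ∈ B, aeval (t + q) F = (F.eval q : A) + t * κ) ∧
    ∃ κ ∈ B, aeval (t + q) F = (F.eval q : A) + (F.derivative.eval q : A) * t + t ^ 2 * κ := by
  have hm : ∀ R : A[X], aeval t R ∈ B := fun R => by
    rw [aeval_eq_sum_range]
    exact sum_mem fun i _ => mul_mem (hAB (R.coeff i).2) (pow_mem ht i)
  have e : aeval (t + q) F = aeval t (taylor q F) := by
    rw [taylor_apply, aeval_comp]
    simp
  have e1 := congrArg (aeval t) (X_mul_divX_add (taylor q F))
  have e2 := congrArg (aeval t) (X_mul_divX_add (taylor q F).divX)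
  simp only [map_add, map_mul, aeval_X, aeval_C, coeff_divX, zero_add, taylor_coeff_zero,
    taylor_coeff_one, Subalgebra.algebraMap_def, Algebra.algebraMap_self, RingHom.id_apply]
    at e1 e2
  exact ⟨⟨_, hm (taylor q F).divX, by linear_combination e - e1⟩,
    _, hm (taylor q F).divX.divX, by linear_combination e - e1 - t * e2⟩

theorem arcP_alg : ∃ z ∈ P.V, (∃ a ∈ Algebra.adjoin ℂ {π, z}, z = π * a) ∧
    IntermediateField.adjoin ℂ {π, z} = ⊤ := by
  classical
  have hπ := arcP_mem h P h0 h1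
  have ht : Transcendental ℂ π := (PlB.const_or π).resolve_left fun ⟨a, e⟩ => by
    rw [e, h.a.con] at h1
    omega
  have := h.b.fd π ht
  have : CharZero (IntermediateField.adjoin ℂ {π}) :=
    charZero_of_injective_algebraMap (algebraMap ℂ _).injective
  have : CharZero (Algebra.adjoin ℂ {π}) :=
    charZero_of_injective_algebraMap (algebraMap ℂ _).injective
  obtain ⟨y, hy, hg⟩ : ∃ y ∈ P.V,
      IntermediateField.adjoin (IntermediateField.adjoin ℂ {π}) {y} = ⊤ := by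
    obtain ⟨y, hy⟩ := Field.exists_primitive_element (IntermediateField.adjoin ℂ {π}) L
    rcases P.V.mem_or_inv_mem y with k | k
    · exact ⟨y, k, hy⟩
    · exact ⟨y⁻¹, k, by rw [PlB.adjoin_inv, hy]⟩
  have hex : ∃ n, ∃ F : (Algebra.adjoin ℂ {π})[X], F ≠ 0 ∧ aeval y F = 0 ∧ F.natDegree = n := by
    obtain ⟨F, a, b⟩ := IntermediateField.isAlgebraic_adjoin_iff.1
      (Algebra.IsAlgebraic.isAlgebraic (R := IntermediateField.adjoin ℂ {π}) y)
    exact ⟨_, F, a, b, rfl⟩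
  obtain ⟨F, f0, f1, f2⟩ := Nat.find_spec hex
  have fd : F.natDegree ≠ 0 := fun k => by
    rw [eq_C_of_natDegree_eq_zero k, aeval_C, Subalgebra.algebraMap_def] at f1
    refine f0 ?_
    rw [eq_C_of_natDegree_eq_zero k, show F.coeff 0 = 0 from Subtype.ext f1, C_0]
  have f3 : aeval y F.derivative ≠ 0 := fun k => Nat.find_min hex
    (f2 ▸ natDegree_derivative_lt fd)
    ⟨_, fun k' => fd (derivative_eq_zero.1 k'), k, rfl⟩
  have hA : ∀ x ∈ Algebra.adjoin ℂ {π}, x ∈ P.V := fun x => arcP_adj P (by simpa using hπ)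
  have f4 : aeval y F.derivative ∈ P.V := by
    rw [aeval_eq_sum_range]
    exact sum_mem fun i _ => mul_mem (hA _ (F.derivative.coeff i).2) (pow_mem hy i)
  obtain ⟨k, hk⟩ := Int.eq_ofNat_of_zero_le ((h.a.mem P _ f3).1 f4)
  obtain ⟨u0, u1⟩ := arcP_div h P h0 h1 f3 k
  have u2 := (h.a.mem P _ u0).2 (by omega)
  have u3 : aeval y F.derivative = π ^ k * (aeval y F.derivative / π ^ k) := by field_simp
  generalize aeval y F.derivative / π ^ k = u at u0 u1 u2 u3
  obtain ⟨q, hq, w, hw, e⟩ := arcP_exp h P h0 h1 (k + 2) y hy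
  have hz : π * w ∈ P.V := mul_mem hπ hw
  have m1 : π ∈ Algebra.adjoin ℂ {π, π * w} := Algebra.subset_adjoin (by simp)
  have m2 : π * w ∈ Algebra.adjoin ℂ {π, π * w} := Algebra.subset_adjoin (by simp)
  have hB : ∀ x ∈ Algebra.adjoin ℂ {π, π * w}, x ∈ P.V := fun x =>
    arcP_adj P (by simpa using ⟨hπ, hz⟩)
  have le : Algebra.adjoin ℂ {π} ≤ Algebra.adjoin ℂ {π, π * w} := Algebra.adjoin_mono (by simp)
  have mt := mul_mem (pow_mem m1 (k + 1)) m2
  have ey : π ^ (k + 1) * (π * w) + q = y := by linear_combination -e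
  obtain ⟨κ', k1, k2⟩ := (arcP_taylor le F.derivative ⟨q, hq⟩ mt).1
  obtain ⟨κ, k3, k4⟩ := (arcP_taylor le F ⟨q, hq⟩ mt).2
  simp only [ey] at k2 k4
  have c1 := arcP_dvd h P h0 h1 k _ (F.derivative.eval ⟨q, hq⟩).2 (u - π * (π * w * κ'))
    (sub_mem u2 (mul_mem hπ (mul_mem hz (hB _ k1)))) (by linear_combination u3 - k2)
  have c2 := arcP_dvd h P h0 h1 (2 * k + 2) _ (F.eval ⟨q, hq⟩).2
    (-((u - π * (π * w * κ')) * w) - κ * (π * w) ^ 2)
    (sub_mem (neg_mem (mul_mem (hA _ c1) hw)) (mul_mem (hB _ k3) (pow_mem hz 2)))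
    (by linear_combination f1 - k4 - π ^ (k + 1) * (π * w) * (u3 - k2))
  obtain ⟨c, c', c3, c4⟩ := arcP_one c1
  have c0 : c ≠ 0 := by
    rintro rfl
    have := arcP_pos h P h0 h1 u0 (add_mem (hA _ c3) (mul_mem hz (hB _ k1)))
      (by rw [map_zero] at c4; linear_combination c4)
    omega
  refine ⟨π * w, hz, ⟨_, mul_mem (Subalgebra.algebraMap_mem _ (-c⁻¹)) (add_mem (add_mem (le c2)
    (mul_mem (le c3) m2)) (mul_mem k3 (pow_mem m2 2))), ?_⟩, ?_⟩
  · have c5 : algebraMap ℂ L (-c⁻¹) * algebraMap ℂ L c = -1 := by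
      rw [← map_mul, neg_mul, inv_mul_cancel₀ c0, map_neg, map_one]
    linear_combination (π * w) * c5 + π * w * algebraMap ℂ L (-c⁻¹) * c4
  · have hg' := IntermediateField.adjoin_simple_adjoin_simple (F := ℂ) (α := π) y
    rw [hg, IntermediateField.restrictScalars_top] at hg'
    rw [eq_top_iff, hg', IntermediateField.adjoin_le_iff]
    have le' := IntermediateField.algebra_adjoin_le_adjoin ℂ ({π, π * w} : Set L)
    rintro x (rfl | rfl)
    · exact le' m1
    · exact le' (ey ▸ add_mem mt (le hq))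

end Alg

section Ana

open MvPolynomial

theorem arcP_ift (H : MvPolynomial (Fin 2) ℂ) : ∃ (η : ℂ → ℂ) (ε : ℝ), 0 < ε ∧
    ∀ s ∈ ball (0 : ℂ) ε, AnalyticAt ℂ η s ∧ η s = s * aeval ![s, η s] H := by
  have a1 : AnalyticAt ℂ (fun x : ℂ × ℂ => aeval ![x.1, x.2] H) (0, 0) :=
    AnalyticAt.aeval_mvPolynomial (fun i => by
      fin_cases i
      exacts [analyticAt_fst, analyticAt_snd]) H
  have a2 : ContDiffAt ℂ ⊤ (fun x : ℂ × ℂ => x.2 - x.1 * aeval ![x.1, x.2] H) (0, 0) :=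
    (analyticAt_snd.sub (analyticAt_fst.mul a1)).contDiffAt
  have a3 := (hasFDerivAt_snd.sub ((hasFDerivAt_fst (p := ((0 : ℂ), (0 : ℂ)))).mul
    a1.differentiableAt.hasFDerivAt)).fderiv
  have a4 : (fderiv ℂ (fun x : ℂ × ℂ => x.2 - x.1 * aeval ![x.1, x.2] H) (0, 0) ∘L
      .inr ℂ ℂ ℂ).IsInvertible := by
    refine ⟨ContinuousLinearEquiv.refl ℂ ℂ, ?_⟩
    rw [show fderiv ℂ (fun x : ℂ × ℂ => x.2 - x.1 * aeval ![x.1, x.2] H) (0, 0) = _ from a3]
    ext
    simp
  have b1 := (a2.contDiffAt_implicitFunction (by simp) a4).analyticAt.eventually_analyticAt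
  have b2 := a2.eventually_apply_implicitFunction (by simp) a4
  obtain ⟨ε, e0, e1⟩ := Metric.eventually_nhds_iff_ball.1 (b1.and b2)
  exact ⟨_, ε, e0, fun s hs => ⟨(e1 s hs).1, by simpa [sub_eq_zero] using (e1 s hs).2⟩⟩

theorem arcP_dec (H p : MvPolynomial (Fin 2) ℂ) : ∃ (c : ℂ) (p' : MvPolynomial (Fin 2) ℂ),
    ∀ (R : Type) [CommRing R] [Algebra ℂ R] (u w : R), w = u * aeval ![u, w] H →
      aeval ![u, w] p = algebraMap ℂ R c + u * aeval ![u, w] p' := by
  induction p using MvPolynomial.induction_on with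
  | C a => exact ⟨a, 0, fun R _ _ u w _ => by simp⟩
  | add p q hp hq =>
    obtain ⟨c, p', a⟩ := hp
    obtain ⟨d, q', b⟩ := hq
    exact ⟨c + d, p' + q', fun R _ _ u w e => by
      simp only [map_add, a R u w e, b R u w e]
      ring⟩
  | mul_X p i _ =>
    fin_cases i
    · exact ⟨0, p, fun R _ _ u w e => by simp [mul_comm]⟩
    · refine ⟨0, p * H, fun R _ _ u w e => ?_⟩
      simp only [map_mul, aeval_X, map_zero, Fin.mk_one, Matrix.cons_val_one, Matrix.cons_val_zero]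
      linear_combination aeval ![u, w] p * e

/-- The places attached to a homomorphism into the meromorphic functions. -/
theorem arcP_fin (h : FFd L) (P : Pl L) (π : L) {ε : ℝ} (e0 : 0 < ε) (m : L → ℂ → ℂ)
    (mer : ∀ x, ∀ s ∈ ball (0 : ℂ) ε, MeromorphicAt (m x) s)
    (mul : ∀ x y, ∀ s ∈ ball (0 : ℂ) ε, m (x * y) =ᶠ[𝓝[≠] s] m x * m y)
    (add : ∀ x y, ∀ s ∈ ball (0 : ℂ) ε, m (x + y) =ᶠ[𝓝[≠] s] m x + m y)
    (con : ∀ c, ∀ s ∈ ball (0 : ℂ) ε, m (algebraMap ℂ L c) =ᶠ[𝓝[≠] s] fun _ => c)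
    (pi : ∀ s ∈ ball (0 : ℂ) ε, m π =ᶠ[𝓝[≠] s] id) (hπ : ∀ c, π ≠ algebraMap ℂ L c)
    (ord : ∀ x, x ≠ 0 → meromorphicOrderAt (m x) 0 = (P.ord x : ℤ)) :
    ∃ (α : ℂ → Pl L) (ε : ℝ), 0 < ε ∧ α 0 = P ∧ Arc α (ball 0 ε) ∧ Set.InjOn α (ball 0 ε) ∧
      ∀ x : L, x ≠ 0 → meromorphicOrderAt (fun s => (α s).val x) 0 = (P.ord x : ℤ) := by
  classical
  have inv : ∀ x, x ≠ 0 → ∀ s ∈ ball (0 : ℂ) ε, ∃ n : ℤ, meromorphicOrderAt (m x) s = n ∧
      meromorphicOrderAt (m x⁻¹) s = (-n : ℤ) := fun x hx s hs => by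
    have a := mul x x⁻¹ s hs
    have b := con 1 s hs
    rw [mul_inv_cancel₀ hx] at a
    rw [map_one] at b
    have c : ∀ᶠ t in 𝓝[≠] s, m x t * m x⁻¹ t = 1 := by
      filter_upwards [a, b] with t e1 e2 using e1.symm.trans e2
    obtain ⟨n, hn⟩ := WithTop.ne_top_iff_exists.1
      ((meromorphicOrderAt_ne_top_iff_eventually_ne_zero (mer x s hs)).2
        (c.mono fun t e => left_ne_zero_of_mul_eq_one e))
    refine ⟨n, hn.symm, ?_⟩
    rw [meromorphicOrderAt_congr (f₂ := (m x)⁻¹) (c.mono fun t e => eq_inv_of_mul_eq_one_right e),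
      meromorphicOrderAt_inv, ← hn]
    rfl
  have an : ∀ x, ∀ s, ∀ g, AnalyticAt ℂ g s → m x =ᶠ[𝓝[≠] s] g →
      0 ≤ meromorphicOrderAt (m x) s := fun x s g a b => by
    rw [meromorphicOrderAt_congr b]
    exact a.meromorphicOrderAt_nonneg
  have hmul : ∀ s ∈ ball (0 : ℂ) ε, ∀ x y, 0 ≤ meromorphicOrderAt (m x) s →
      0 ≤ meromorphicOrderAt (m y) s → 0 ≤ meromorphicOrderAt (m (x * y)) s :=
    fun s hs x y a b => by
      rw [meromorphicOrderAt_congr (mul x y s hs),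
        meromorphicOrderAt_mul (mer x s hs) (mer y s hs)]
      exact add_nonneg a b
  have pos : ∀ s ∈ ball (0 : ℂ) ε, ∀ x g, AnalyticAt ℂ g s → m x =ᶠ[𝓝[≠] s] g →
      x - algebraMap ℂ L (g s) ≠ 0 →
      ¬ 0 ≤ meromorphicOrderAt (m (x - algebraMap ℂ L (g s))⁻¹) s := fun s hs x g a b k => by
    obtain ⟨n, n1, n2⟩ := inv _ k s hs
    have c : 0 < meromorphicOrderAt (m (x - algebraMap ℂ L (g s))) s := by
      refine (tendsto_zero_iff_meromorphicOrderAt_pos (mer _ s hs)).1 ?_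
      have d := (a.continuousAt.tendsto.sub_const (g s)).mono_left (nhdsWithin_le_nhds (s := {s}ᶜ))
      rw [sub_self] at d
      refine d.congr' ?_
      rw [sub_eq_add_neg x, ← map_neg]
      filter_upwards [add x _ s hs, con (-g s) s hs, b] with t e1 e2 e3
      rw [e1, Pi.add_apply, e2, e3, sub_eq_add_neg]
    rw [n1] at c
    rw [n2]
    norm_cast at c ⊢
    omega
  have ex : ∀ s, ∃ Q : Pl L, s ∈ ball (0 : ℂ) ε → ∀ x, x ∈ Q.V ↔ 0 ≤ meromorphicOrderAt (m x) s := by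
    intro s
    by_cases hs : s ∈ ball (0 : ℂ) ε
    swap
    · exact ⟨P, fun k => (hs k).elim⟩
    have c := fun c => an _ s _ analyticAt_const (con c s hs)
    refine ⟨⟨⟨⟨⟨⟨⟨{x | 0 ≤ meromorphicOrderAt (m x) s}, hmul s hs _ _⟩, by simpa using c 1⟩,
      fun {x y} a b => ?_, by simpa using c 0⟩, fun {x} a => ?_⟩, fun x => ?_⟩, fun k => ?_, c⟩,
      fun _ _ => Iff.rfl⟩
    · show 0 ≤ meromorphicOrderAt (m (x + y)) s
      rw [meromorphicOrderAt_congr (add x y s hs)]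
      exact (le_min a b).trans (meromorphicOrderAt_add (mer x s hs) (mer y s hs))
    · simpa using hmul s hs _ _ (c (-1)) a
    · by_cases k : x = 0
      · exact Or.inl (by simpa [k] using c 0)
      · obtain ⟨n, n1, n2⟩ := inv x k s hs
        show 0 ≤ meromorphicOrderAt (m x) s ∨ 0 ≤ meromorphicOrderAt (m x⁻¹) s
        rw [n1, n2]
        norm_cast
        omega
    · refine pos s hs π id analyticAt_id (pi s hs) (sub_ne_zero.2 (hπ _)) ?_
      exact (SetLike.ext_iff.1 k _).2 (ValuationSubring.mem_top _)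
  choose α hα using ex
  have val : ∀ s ∈ ball (0 : ℂ) ε, ∀ x g, AnalyticAt ℂ g s → m x =ᶠ[𝓝[≠] s] g →
      x ∈ (α s).V ∧ (α s).val x = g s := fun s hs x g a b => by
    have c := (hα s hs x).2 (an x s g a b)
    refine ⟨c, (h.a.val _ x c _).1 ?_⟩
    rw [h.a.zero, ValuationSubring.mem_nonunits_iff_or, or_iff_not_imp_left, hα s hs]
    exact pos s hs x g a b
  have z : (0 : ℂ) ∈ ball (0 : ℂ) ε := mem_ball_self e0
  refine ⟨α, ε, e0, Place.ext (SetLike.ext fun x => ?_), fun s hs x hx => ?_,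
    fun s hs t ht e => ?_, fun x hx => ?_⟩
  · by_cases k : x = 0
    · simp [k]
    · rw [hα 0 z, ord x k, h.a.mem P x k]
      norm_cast
  · obtain ⟨g, a, b⟩ := (mer x s hs).meromorphicOrderAt_nonneg_iff.1 ((hα s hs x).1 hx)
    have c : ∀ᶠ t in 𝓝 s, x ∈ (α t).V ∧ (α t).val x = g t := by
      filter_upwards [isOpen_ball.mem_nhds hs, a.eventually_analyticAt,
        eventually_nhds_nhdsWithin.2 b] with t e1 e2 e3
      refine val t e1 x g e2 ?_
      by_cases k : t = s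
      · exact k ▸ b
      · rw [nhdsWithin_eq_nhds.2 (compl_singleton_mem_nhds k)] at e3
        exact e3.filter_mono nhdsWithin_le_nhds
    exact ⟨c.mono fun t e => e.1, a.congr (c.mono fun t e => e.2.symm)⟩
  · exact (val s hs π id analyticAt_id (pi s hs)).2.symm.trans
      (e ▸ (val t ht π id analyticAt_id (pi t ht)).2)
  · rw [← ord x hx]
    refine meromorphicOrderAt_congr ?_
    filter_upwards [(mer x 0 z).eventually_analyticAt,
      mem_nhdsWithin_of_mem_nhds (isOpen_ball.mem_nhds z)] with t e1 e2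
    exact (val t e2 x _ e1 EventuallyEq.rfl).2

end Ana

open MvPolynomial in
theorem sArcP : SArcP := by
  intro L _ _ h P
  obtain ⟨π, h0, h1⟩ := h.a.uni P
  obtain ⟨z, hz, ⟨a, ha, ez⟩, hg⟩ := arcP_alg h P h0 h1
  have hπ := arcP_mem h P h0 h1
  have hr : Set.range ![π, z] = {π, z} := by simp [Set.pair_comm]
  rw [← hr] at ha hg
  have hV : ∀ p : MvPolynomial (Fin 2) ℂ, aeval ![π, z] p ∈ P.V := fun p =>
    arcP_adj P (S := Set.range ![π, z]) (by rw [hr]; simpa using ⟨hπ, hz⟩)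
      (by rw [Algebra.adjoin_range_eq_range_aeval]; exact ⟨p, rfl⟩)
  rw [Algebra.adjoin_range_eq_range_aeval] at ha
  obtain ⟨H, rfl⟩ := ha
  obtain ⟨η, ε, e0, hη⟩ := arcP_ift H
  have z0 : (0 : ℂ) ∈ ball (0 : ℂ) ε := mem_ball_self e0
  obtain ⟨e, he⟩ : ∃ e : MvPolynomial (Fin 2) ℂ → ℂ → ℂ, ∀ p s, e p s = aeval ![s, η s] p :=
    ⟨_, fun _ _ => rfl⟩
  have an : ∀ p, ∀ s ∈ ball (0 : ℂ) ε, AnalyticAt ℂ (e p) s := fun p s hs => by
    rw [show e p = _ from funext (he p)]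
    exact AnalyticAt.aeval_mvPolynomial (fun i => by
      fin_cases i
      exacts [analyticAt_id, (hη s hs).1]) p
  have o1 : ∀ (n : ℕ) p, aeval ![π, z] p ≠ 0 → P.ord (aeval ![π, z] p) = n →
      meromorphicOrderAt (e p) 0 = (n : ℤ) := fun n => by
    induction n using Nat.strong_induction_on with
    | _ n ih =>
    intro p p0 p1
    obtain ⟨c, p', k⟩ := arcP_dec H p
    have k1 := k L π z ez
    by_cases hc : c = 0
    · rw [hc, map_zero, zero_add] at k1
      have q0 : aeval ![π, z] p' ≠ 0 := fun q => p0 (by rw [k1, q, mul_zero])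
      obtain ⟨j, hj⟩ := Int.eq_ofNat_of_zero_le ((h.a.mem P _ q0).1 (hV p'))
      rw [k1, h.a.mul P _ _ h0 q0, h1, hj] at p1
      rw [meromorphicOrderAt_congr (f₂ := id * e p') ?_, meromorphicOrderAt_mul
        analyticAt_id.meromorphicAt (an p' 0 z0).meromorphicAt, meromorphicOrderAt_id,
        ih j (by omega) p' q0 hj, ← p1]
      · rfl
      · filter_upwards [mem_nhdsWithin_of_mem_nhds (isOpen_ball.mem_nhds z0)] with s hs
        simp [he, k ℂ s _ (hη s hs).2, hc]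
    · obtain rfl : n = 0 := by
        by_contra k2
        obtain ⟨b, d⟩ := arcP_div h P h0 h1 p0 1
        refine hc (arcP_const h P h0 h1 (sub_mem ((h.a.mem P _ b).2 (by omega)) (hV p')) ?_)
        field_simp
        linear_combination -k1
      refine (tendsto_ne_zero_iff_meromorphicOrderAt_eq_zero (an p 0 z0).meromorphicAt).1
        ⟨e p 0, ?_, (an p 0 z0).continuousAt.tendsto.mono_left nhdsWithin_le_nhds⟩
      simpa [he, k ℂ 0 _ (hη 0 z0).2] using hc
  have o2 : ∀ p, aeval ![π, z] p ≠ 0 →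
      meromorphicOrderAt (e p) 0 = (P.ord (aeval ![π, z] p) : ℤ) := fun p p0 => by
    obtain ⟨j, hj⟩ := Int.eq_ofNat_of_zero_le ((h.a.mem P _ p0).1 (hV p))
    rw [o1 j p p0 hj, hj]
  have mo : ∀ p, MeromorphicOn (e p) (ball 0 ε) := fun p s hs => (an p s hs).meromorphicAt
  have ne : ∀ p, aeval ![π, z] p ≠ 0 → ∀ s ∈ ball (0 : ℂ) ε, ∀ᶠ t in 𝓝[≠] s, e p t ≠ 0 :=
    fun p p0 s hs => (meromorphicOrderAt_ne_top_iff_eventually_ne_zero (mo p s hs)).1
      ((mo p).meromorphicOrderAt_ne_top_of_isPreconnected (convex_ball 0 ε).isPreconnected z0 hs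
        (by rw [o2 p p0]; exact WithTop.coe_ne_top))
  have ze : ∀ p, aeval ![π, z] p = 0 → ∀ s ∈ ball (0 : ℂ) ε, ∀ᶠ t in 𝓝[≠] s, e p t = 0 := by
    intro p p0 s hs
    rw [← meromorphicOrderAt_eq_top_iff]
    by_contra k
    obtain ⟨n, hn⟩ := WithTop.ne_top_iff_exists.1
      ((mo p).meromorphicOrderAt_ne_top_of_isPreconnected (convex_ball 0 ε).isPreconnected hs z0 k)
    have a1 := o1 (n.toNat + 1) (X 0 ^ (n.toNat + 1)) (by simp [h0])
      (by simp only [map_pow, aeval_X, Matrix.cons_val_zero, PlB.ord_pow h.a P π h0, h1, mul_one])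
    have a2 := o1 (n.toNat + 1) (p + X 0 ^ (n.toNat + 1)) (by simp [h0, p0])
      (by simp only [map_add, p0, zero_add, map_pow, aeval_X, Matrix.cons_val_zero,
        PlB.ord_pow h.a P π h0, h1, mul_one])
    rw [show e (p + X 0 ^ (n.toNat + 1)) = e p + e (X 0 ^ (n.toNat + 1)) from
      funext fun t => by simp only [he, map_add, Pi.add_apply],
      meromorphicOrderAt_add_eq_left_of_lt (mo _ 0 z0) (by
        rw [← hn, a1]
        norm_cast
        omega), ← hn] at a2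
    norm_cast at a2
    omega
  have rep : ∀ x : L, ∃ a b : MvPolynomial (Fin 2) ℂ, aeval ![π, z] b ≠ 0 ∧
      x * aeval ![π, z] b = aeval ![π, z] a := fun x => by
    obtain ⟨a, b, k⟩ := (IntermediateField.mem_adjoin_range_iff ℂ ![π, z] x).1
      (hg ▸ IntermediateField.mem_top)
    by_cases hb : aeval ![π, z] b = 0
    · exact ⟨0, 1, by simp, by simp [k, hb]⟩
    · exact ⟨a, b, hb, by rw [k, div_mul_cancel₀ _ hb]⟩
  choose a b hb hab using rep
  have key : ∀ x a' b', aeval ![π, z] b' ≠ 0 → x * aeval ![π, z] b' = aeval ![π, z] a' →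
      ∀ s ∈ ball (0 : ℂ) ε, ∀ᶠ t in 𝓝[≠] s, (e (a x) / e (b x)) t = e a' t / e b' t := by
    intro x a' b' k1 k2 s hs
    filter_upwards [ne _ (hb x) s hs, ne _ k1 s hs, ze (a x * b' - a' * b x) (by
      rw [map_sub, map_mul, map_mul, ← hab, ← k2]
      ring) s hs] with t e1 e2 e3
    rw [Pi.div_apply, div_eq_div_iff e1 e2, ← sub_eq_zero]
    simpa only [he, map_sub, map_mul] using e3
  refine arcP_fin h P π e0 (fun x => e (a x) / e (b x)) (fun x s hs => (mo _ s hs).div (mo _ s hs))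
    (fun x y s hs => ?_) (fun x y s hs => ?_) (fun c s hs => ?_) (fun s hs => ?_)
    (fun c k => ?_) fun x hx => ?_
  · filter_upwards [key (x * y) (a x * a y) (b x * b y) (by simp [hb]) (by
      rw [map_mul, map_mul, ← hab, ← hab]
      ring) s hs] with t e1
    rw [e1]
    simp only [he, map_mul, Pi.mul_apply, Pi.div_apply, mul_div_mul_comm]
  · filter_upwards [key (x + y) (a x * b y + b x * a y) (b x * b y) (by simp [hb]) (by
      rw [map_add, map_mul, map_mul, map_mul, ← hab, ← hab]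
      ring) s hs, ne _ (hb x) s hs, ne _ (hb y) s hs] with t e1 e2 e3
    rw [e1, Pi.add_apply, Pi.div_apply, Pi.div_apply, div_add_div _ _ e2 e3]
    simp only [he, map_mul, map_add]
  · filter_upwards [key (algebraMap ℂ L c) (C c) 1 (by simp) (by simp) s hs] with t e1
    rw [e1]
    simp [he]
  · filter_upwards [key π (X 0) 1 (by simp) (by simp) s hs] with t e1
    rw [e1]
    simp [he]
  · rw [k, h.a.con] at h1
    omega
  · have a0 : aeval ![π, z] (a x) ≠ 0 := hab x ▸ mul_ne_zero hx (hb x)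
    rw [meromorphicOrderAt_div (mo _ 0 z0) (mo _ 0 z0), o2 _ a0, o2 _ (hb x), ← hab,
      h.a.mul P _ _ hx (hb x)]
    norm_cast
    simp

end Pool.Agent.MP_c69980_ag.H43
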