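import Pool.Agent.MP_c69980_ag.H43.Spec1

/-!
Differential specialisations.
-/

set_option autoImplicit false

namespace Pool.Agent.MP_c69980_ag.H43

open MvPolynomial H60

lemma am_snd {A : Type} [CommRing A] (e : A →+* TrivSqZeroExt A A) (he : ∀ x, (e x).fst = x) :
    ∃ d : A →+ A, Leib d ∧ ∀ x, d x = (e x).snd :=
  ⟨⟨⟨fun x => (e x).snd, by simp⟩, fun x y => by simp⟩, fun x y => by
    simp [he, mul_comm, add_comm], fun _ => rfl⟩

lemma am_lift {L A : Type} [CommRing L] [CommRing A] (f : L →+* A) (a : L →+ L) (ha : Leib a)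
    (h1 : a 1 = 0) : ∃ c : L →+* TrivSqZeroExt A A, ∀ x, (c x).fst = f x ∧ (c x).snd = f (a x) :=
  ⟨{  toFun := fun c => (f c, f (a c))
      map_one' := TrivSqZeroExt.ext (map_one f) (by simp [h1])
      map_zero' := TrivSqZeroExt.ext (map_zero f) (by simp)
      map_add' := fun x y => TrivSqZeroExt.ext (map_add f x y) (by simp)
      map_mul' := fun x y => TrivSqZeroExt.ext (map_mul f x y)
        (by simp [ha x y, mul_comm, add_comm]) }, fun _ => ⟨rfl, rfl⟩⟩

lemma am_der {L R : Type} [CommRing L] (a : L →+ L) (ha : Leib a) (h1 : a 1 = 0) (b : R → R) :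
    ∃ d : MvPolynomial R L →+ MvPolynomial R L, Leib d ∧ (∀ c, d (C c) = C (a c)) ∧
      ∀ r, d (X r) = X (b r) := by
  obtain ⟨c, hc⟩ := am_lift (C : L →+* MvPolynomial R L) a ha h1
  obtain ⟨d, d1, d2⟩ := am_snd (eval₂Hom c fun r => (X r, X (b r))) fun x => by
    induction x using MvPolynomial.induction_on with
    | C x => rw [eval₂Hom_C, (hc x).1]
    | add p q hp hq => rw [map_add, TrivSqZeroExt.fst_add, hp, hq]
    | mul_X p r hp => rw [map_mul, TrivSqZeroExt.fst_mul, hp, eval₂Hom_X']; rfl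
  exact ⟨d, d1, fun x => by rw [d2, eval₂Hom_C, (hc x).2], fun r => by rw [d2, eval₂Hom_X']; rfl⟩

theorem sAm (h1 : SEmb) (h2 : SExt) (h3 : SKei) : SAm := by
  intro F L R ι D hFL hL hR hD I hI hs
  obtain ⟨m, hm, hIm⟩ := Ideal.exists_le_maximal I hI
  obtain ⟨ψ₀, -⟩ := h1.1 F ((Subfield.inclusion hFL).injective.countable) (R ⧸ m)
    ((Cardinal.mk_le_aleph0_iff.2 Ideal.Quotient.mk_surjective.countable).trans
      Cardinal.aleph0_le_continuum)
  let φ₀ := ψ₀.comp (Ideal.Quotient.mkₐ F m)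
  let b : ι → R → R := fun i r => ⟨D i r, (hD i).2.2 _ r.2⟩
  choose d d1 d2 d3 using fun i => am_der (L := L)
    ⟨⟨fun c => ⟨D i c, (hD i).2.1 _ c.2⟩, Subtype.ext (by simp)⟩, fun x y => Subtype.ext (by simp)⟩
    (fun x y => Subtype.ext (by simp [mul_comm, add_comm])) (Subtype.ext (by simp)) (b i)
  let S : Set (MvPolynomial R L) := {x | (∃ r s, x = X (r + s) - X r - X s) ∨
    (∃ r s, x = X (r * s) - X r * X s) ∨
    (∃ c : F, x = X (algebraMap F R c) - C (Subfield.inclusion hFL c)) ∨ ∃ r ∈ I, x = X r}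
  have s1 : ∀ r s, X (r + s) - X r - X s ∈ Ideal.span S := fun r s =>
    Ideal.subset_span (Or.inl ⟨r, s, rfl⟩)
  have s2 : ∀ r s, X (r * s) - X r * X s ∈ Ideal.span S := fun r s =>
    Ideal.subset_span (Or.inr (Or.inl ⟨r, s, rfl⟩))
  have s3 : ∀ c : F, X (algebraMap F R c) - C (Subfield.inclusion hFL c) ∈ Ideal.span S := fun c =>
    Ideal.subset_span (Or.inr (Or.inr (Or.inl ⟨c, rfl⟩)))
  have s4 : ∀ r ∈ I, X r ∈ Ideal.span S := fun r hr =>
    Ideal.subset_span (Or.inr (Or.inr (Or.inr ⟨r, hr, rfl⟩)))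
  obtain ⟨q, hq, -, q1, q2⟩ := h3.1 (MvPolynomial R L) ι d d1 (fun n => by
    simpa using (IsUnit.mk0 ((n : L) + 1) (Nat.cast_add_one_ne_zero n)).map
      (C : L →+* MvPolynomial R L))
    (RingHom.ker (eval₂Hom L.subtype φ₀)) (RingHom.ker_isPrime _)
  have hJ : Ideal.span S ≤ q := by
    refine q2 _ (fun i x hx => ?_) (Ideal.span_le.2 ?_)
    · induction hx using Submodule.span_induction with
      | mem x hx =>
        rcases hx with ⟨r, s, rfl⟩ | ⟨r, s, rfl⟩ | ⟨c, rfl⟩ | ⟨r, hr, rfl⟩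
        · rw [map_sub, map_sub, d3, d3, d3,
            show b i (r + s) = b i r + b i s from Subtype.ext (by simp [b])]
          exact s1 _ _
        · rw [map_sub, d1 i, d3, d3, d3,
            show b i (r * s) = r * b i s + s * b i r from Subtype.ext (by simp [b])]
          refine (congrArg (· ∈ Ideal.span S) ?_).mp
            (add_mem (add_mem (s1 (r * b i s) (s * b i r)) (s2 r (b i s))) (s2 s (b i r)))
          ring
        · rw [map_sub, d2, d3]
          exact s3 ⟨D i c, (hD i).1 _ c.2⟩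
        · rw [d3]
          exact s4 _ (hs i r hr _ rfl)
      | zero => rw [map_zero]; exact zero_mem _
      | add x y _ _ hx hy => rw [map_add]; exact add_mem hx hy
      | smul a x h hx =>
        rw [smul_eq_mul, d1 i]
        exact add_mem (Ideal.mul_mem_left _ _ h) (Ideal.mul_mem_left _ _ hx)
    · rintro x (⟨r, s, rfl⟩ | ⟨r, s, rfl⟩ | ⟨c, rfl⟩ | ⟨r, hr, rfl⟩)
      · simp [RingHom.mem_ker]
      · simp [RingHom.mem_ker]
      · simp only [SetLike.mem_coe, RingHom.mem_ker, map_sub, eval₂Hom_X', eval₂Hom_C,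
          AlgHom.commutes]
        exact sub_self _
      · simp [RingHom.mem_ker, φ₀, Ideal.Quotient.eq_zero_iff_mem.2 (hIm hr)]
  obtain ⟨ψ, hψ⟩ := h1.1 L hL (MvPolynomial R L ⧸ q) ((Cardinal.mk_le_of_surjective
    Ideal.Quotient.mk_surjective).trans (cardinalMk_le_max.trans (max_le (max_le
      Cardinal.mk_le_aleph0 Cardinal.mk_le_aleph0) le_rfl |>.trans Cardinal.aleph0_le_continuum)))
  let π := ψ.comp (Ideal.Quotient.mkₐ L q)
  have hπ : ∀ x, π x = 0 ↔ x ∈ q := fun x =>
    (map_eq_zero_iff ψ hψ).trans Ideal.Quotient.eq_zero_iff_mem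
  have hC : ∀ c : L, π (C c) = c := π.commutes
  have p3 : ∀ c : F, π (X (algebraMap F R c)) = c := fun c => by
    have := (hπ _).2 (hJ (s3 c))
    rwa [map_sub, hC, sub_eq_zero] at this
  choose D' hD' using fun i => h2.1 (MvPolynomial R L) π.toRingHom
    (π.toRingHom.toAddMonoidHom.comp (d i)) (fun x y => by simp [d1 i x y, mul_comm, add_comm])
    fun x hx => (hπ _).2 (q1 i x ((hπ x).1 hx))
  refine ⟨{ toFun := fun r => π (X r)
            map_one' := by simpa using p3 1
            map_zero' := by simpa using p3 0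
            map_add' := fun r s => ?_
            map_mul' := fun r s => ?_
            commutes' := p3 }, D', fun x hx => (hπ _).2 (hJ (s4 x hx)), fun i =>
    ⟨fun x hx => ?_, fun x y hy => ?_⟩⟩
  · have := (hπ _).2 (hJ (s2 r s))
    rwa [map_sub, map_mul, sub_eq_zero] at this
  · have := (hπ _).2 (hJ (s1 r s))
    rwa [map_sub, map_sub, sub_sub, sub_eq_zero] at this
  · exact (congrArg (D' i) (hC ⟨x, hx⟩)).symm.trans
      ((hD' i (C ⟨x, hx⟩)).trans ((congrArg π (d2 i _)).trans (hC _)))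
  · rw [show y = b i x from Subtype.ext hy]
    exact (hD' i (X x)).trans (congrArg π (d3 i x))

end Pool.Agent.MP_c69980_ag.H43
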